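import Pool.Agent.ASE.Stmts5

/-!
# LET: the labels `et`
-/

set_option autoImplicit false
set_option linter.unusedSectionVars false

open scoped BigOperators

noncomputable section

namespace Pool.Agent.PP.SE.H61

open Pool.Agent.Helper51_AWC Pool.Agent.Helper79_WRA Pool.Agent.PP Pool.Agent.PP.KF
open Pool.Agent.PP.K9 Pool.Agent.PP.K9.H97 Pool.Agent.PP.H75 Pool.Agent.PP.T3 Pool.Agent.PP.SO
open Pool.Agent.PP.SD

attribute [local instance] Ideal.Quotient.field

theorem let_ : LetStmt := by
  intro ℓ hℓ M hM hlM hl2 V₀ G _ _ _ _ E₀ hFq B hSb D hRs a ha κ hκ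
  classical
  haveI := Fintype.ofFinite G
  have hca : Nat.card a = ℓ := ha.1
  have hab : a ≠ ⊥ := by
    intro h
    rw [h, Subgroup.card_bot] at hca
    exact hℓ.out.one_lt.ne hca
  have hCz := hRs.e1 a hab
  refine ⟨1, fun _ => a, fun _ s => (Nat.card (B.C a) : ℂ)⁻¹ * D.et a s, fun _ => ?_, ?_⟩
  · refine ⟨hκ, ?_, ?_, ?_, ?_⟩
    · intro s hs
      simp only
      rw [hCz.sup s hs, mul_zero]
    · intro s hs
      simp only
      rw [hRs.e2 a hab s hs, mul_zero]
    · intro z hz s
      simp only
      rw [hCz.cls z hz s]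
    · intro s hs
      have h := hRs.e5 a hab s hs
      have hc : (Nat.card (B.C a) : ℂ) ≠ 0 := by
        have : 0 < Nat.card (B.C a) := Nat.card_pos
        exact_mod_cast this.ne'
      simp only
      rw [hca]
      have e : (ℓ : ℂ) * ((Nat.card (B.C a) : ℂ) * ((Nat.card (B.C a) : ℂ)⁻¹ * D.et a s)) =
          (ℓ : ℂ) * D.et a s := by
        rw [← mul_assoc (Nat.card (B.C a) : ℂ), mul_inv_cancel₀ hc, one_mul]
      rw [e]
      exact h
  · intro W N hN
    rw [Fin.sum_univ_one]
    have hkey : ∀ c : ℂ, ∑ᶠ s : G, c * D.et a s * N (B.i κ * s) =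
        c * ∑ᶠ g : G, tk B κ (D.et a) g * N g := by
      intro c
      rw [finsum_eq_sum_of_fintype, finsum_eq_sum_of_fintype, Finset.mul_sum]
      refine Fintype.sum_equiv (Equiv.mulLeft (B.i κ)) _ _ fun s => ?_
      simp only [Equiv.coe_mulLeft, tk, inv_mul_cancel_left]
      ring
    by_cases hWa : W = a
    · rw [if_pos hWa.le, hkey]
      subst hWa
      congr 1
      refine finsum_congr fun g => ?_
      rw [etl, if_pos rfl]
    · by_cases hWb : W = ⊥
      · have hle : W ≤ a := hWb ▸ bot_le
        rw [if_pos hle, hkey]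
        have hC : ∀ g : G, g ∈ B.C W := by
          intro g
          rw [hWb, Bk.C, Subgroup.map_bot]
          rw [Subgroup.mem_centralizer_iff]
          intro x hx
          rw [Subgroup.coe_bot, Set.mem_singleton_iff] at hx
          rw [hx, one_mul, mul_one]
        have hcard : Nat.card (B.C W) = Nat.card G := by
          have : B.C W = ⊤ := by
            rw [eq_top_iff]
            exact fun g _ => hC g
          rw [this, Subgroup.card_top]
        have hG : (Nat.card G : ℂ) ≠ 0 := by
          have : 0 < Nat.card G := Nat.card_pos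
          exact_mod_cast this.ne'
        have e1 : ∀ g, etl B D a κ W g = (Nat.card (B.C a) : ℂ)⁻¹ *
            ∑ z : G, tk B κ (D.et a) (z⁻¹ * g * z) := by
          intro g
          rw [etl, if_neg hWa, if_pos hWb, finsum_eq_sum_of_fintype]
        have e2 : ∑ᶠ g : G, etl B D a κ W g * N g = (Nat.card (B.C a) : ℂ)⁻¹ *
            (Nat.card G * ∑ g : G, tk B κ (D.et a) g * N g) := by
          rw [finsum_eq_sum_of_fintype]
          have e3 : ∀ z : G, ∑ g : G, tk B κ (D.et a) (z⁻¹ * g * z) * N g =
              ∑ g : G, tk B κ (D.et a) g * N g := by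
            intro z
            refine Fintype.sum_equiv (MulAut.conj z⁻¹).toEquiv _ _ fun g => ?_
            have h1 : (MulAut.conj z⁻¹).toEquiv g = z⁻¹ * g * z := by
              simp [MulAut.conj_apply]
            rw [h1]
            congr 1
            have h2 := hN z⁻¹ (hC _) g
            rw [inv_inv] at h2
            exact h2.symm
          have e4 : ∑ g : G, etl B D a κ W g * N g = (Nat.card (B.C a) : ℂ)⁻¹ *
              ∑ z : G, ∑ g : G, tk B κ (D.et a) (z⁻¹ * g * z) * N g := by
            rw [Finset.sum_comm, Finset.mul_sum]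
            refine Finset.sum_congr rfl fun g _ => ?_
            rw [e1, mul_assoc, Finset.sum_mul]
          rw [e4, Finset.sum_congr rfl fun z _ => e3 z, Finset.sum_const, Finset.card_univ,
            nsmul_eq_mul, Nat.card_eq_fintype_card (α := G)]
        rw [e2, hcard, finsum_eq_sum_of_fintype]
        field_simp
      · have hle : ¬ W ≤ a := by
          intro h
          have h1 : Nat.card W ∣ ℓ := hca ▸ Subgroup.card_dvd_of_le h
          rcases (Nat.dvd_prime hℓ.out).1 h1 with h2 | h2
          · exact hWb (Subgroup.card_eq_one.1 h2)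
          · exact hWa (Subgroup.eq_of_le_of_card_ge h (by rw [h2, hca]))
        rw [if_neg hle]
        have e0 : ∀ g, etl B D a κ W g = 0 := by
          intro g
          rw [etl, if_neg hWa, if_neg hWb]
        have e1 : ∑ᶠ g : G, etl B D a κ W g * N g = 0 := by
          rw [← finsum_zero (α := G) (M := ℂ)]
          refine finsum_congr fun g => ?_
          rw [e0, zero_mul]
        rw [e1, mul_zero]

end Pool.Agent.PP.SE.H61
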