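import Pool.Agent.ASE.Stmts5

/-!
# LFM: the labels at `W ≠ ⊥`
-/

set_option autoImplicit false
set_option linter.unusedSectionVars false

open scoped BigOperators

noncomputable section

namespace Pool.Agent.PP.SE.H61

open Pool.Agent.Helper51_AWC Pool.Agent.Helper79_WRA Pool.Agent.PP Pool.Agent.PP.KF
open Pool.Agent.PP.K9 Pool.Agent.PP.K9.H97 Pool.Agent.PP.H75 Pool.Agent.PP.T3 Pool.Agent.PP.SO
open Pool.Agent.PP.SD

attribute [local instance] Ideal.Quotient.field

theorem card_zp {ℓ : ℕ} [hℓ : Fact ℓ.Prime] {V₀ : Type} [CommGroup V₀] [Finite V₀] {c : V₀}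
    (hc : c ≠ 1) (h : c ^ ℓ = 1) : Nat.card (Subgroup.zpowers c) = ℓ := by
  rw [Nat.card_zpowers]
  exact orderOf_eq_prime h hc

theorem kE_eq {ℓ : ℕ} {V₀ : Type} [CommGroup V₀] [Finite V₀] (E₀ : Subgroup (MulAut V₀)) (c : V₀) :
    kE E₀ c = nS E₀ (Subgroup.zpowers c) := by
  have h : Es E₀ c = St E₀ (Subgroup.zpowers c) := by
    ext σ
    constructor
    · intro hσ
      refine ⟨hσ.1, fun w hw => ?_⟩
      obtain ⟨k, rfl⟩ := Subgroup.mem_zpowers_iff.1 hw
      rw [map_zpow, hσ.2]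
    · intro hσ
      exact ⟨hσ.1, hσ.2 c (Subgroup.mem_zpowers c)⟩
  rw [kE, nS, h]

theorem lfm (hPRB : PrbStmt) : LfmStmt := by
  intro ℓ hℓ M hM hlM V₀ G _ _ _ _ E₀ hFq B hSb D hRs c hc W hW
  classical
  obtain ⟨-, -, -, -, -, -, h7, ⟨h8, -, -⟩, -, -⟩ := hPRB ℓ V₀ E₀ hFq W
  obtain ⟨h71, h72⟩ := h7 hW
  have hzc : Nat.card (Subgroup.zpowers c) = ℓ := card_zp hc (hFq.ex c)
  have hle : W ≤ Subgroup.zpowers c → W = Subgroup.zpowers c := by
    intro h
    refine Subgroup.eq_of_le_of_card_ge h ?_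
    rw [hzc]
    have h1 : Nat.card W ∣ ℓ := hzc ▸ Subgroup.card_dvd_of_le h
    rcases (Nat.dvd_prime hℓ.out).1 h1 with h2 | h2
    · exact absurd (Subgroup.card_eq_one.1 h2) hW
    · exact h2.ge
  refine ⟨?_, ?_, ?_⟩
  · rintro ⟨-, hcW⟩ g
    have hn : ¬ W ≤ Subgroup.zpowers c := by
      intro h
      rw [hle h] at hcW
      exact hcW (Subgroup.mem_zpowers c)
    rw [mnl, fm, if_neg hn, if_neg hcW, if_neg hcW]
    ring
  · intro hno g
    by_cases hcW : c ∈ W
    · rcases h72 with h | h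
      · have hn : ¬ W ≤ Subgroup.zpowers c := by
          intro h1
          have h2 := hle h1
          have h3 : Nat.card V₀ = ℓ := by
            rw [← hzc, ← h2, h, Subgroup.card_top]
          rw [hFq.cd] at h3
          have h4 : ℓ ^ 1 < ℓ ^ 2 := Nat.pow_lt_pow_right hℓ.out.one_lt (by norm_num)
          rw [pow_one, h3] at h4
          exact lt_irrefl _ h4
        rw [mnl, fm, if_neg hn, if_pos hcW, if_pos hcW, h, h8]
        push_cast
        ring
      · have hWc : Subgroup.zpowers c = W := by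
          refine Subgroup.eq_of_le_of_card_ge ?_ ?_
          · rw [Subgroup.zpowers_le]
            exact hcW
          · rw [h, hzc]
        have hn : W ≤ Subgroup.zpowers c := hWc.ge
        rw [mnl, fm, if_pos hn, if_pos hcW, if_pos hcW, kE_eq (ℓ := ℓ), hWc]
        ring
    · have hnR : W ∉ RL ℓ E₀ := fun h => hno ⟨h, hcW⟩
      have h1 := hRs.f1 W hW (h71.resolve_right hnR)
      have hn : ¬ W ≤ Subgroup.zpowers c := by
        intro h
        rw [hle h] at hcW
        exact hcW (Subgroup.mem_zpowers c)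
      rw [mnl, fm, if_neg hn, if_neg hcW, if_neg hcW, tk, h1.1]
      simp
  · intro a κ g
    refine ⟨fun h => ?_, fun h => ?_⟩
    · rw [etl, if_pos h]
    · rw [etl, if_neg h, if_neg hW]

end Pool.Agent.PP.SE.H61
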